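import Pool.Agent.H735EL.Main

/-! High moments: simultaneous bounds for large families. -/

set_option autoImplicit false

open Finset

namespace Pool.Agent.H735EL

theorem pr_inj {k : ℕ} (h : Fin k → ℕ) (S : Finset (Fin k)) (hS : S.Nonempty) (x : ℕ) :
    Set.InjOn (pr h S) (Icc 1 x : Finset ℕ) := by
  have key : ∀ n m : ℕ, 1 ≤ n → n < m → pr h S n < pr h S m := by
    intro n m hn hnm
    exact Finset.prod_lt_prod_of_nonempty (fun i _ => by omega) (fun i _ => by omega) hS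
  intro n hn m hm hnm
  rw [Finset.mem_coe, mem_Icc] at hn hm
  rcases lt_trichotomy n m with h1 | h1 | h1
  · exact absurd hnm (key n m hn.1 h1).ne
  · exact h1
  · exact absurd hnm (key m n hm.1 h1).ne'

theorem family (k : ℕ) (A δ B : ℝ) (hA : 0 ≤ A) (hδ : 0 < δ) (hB : 0 < B) :
    ∃ K : ℝ, ∃ m : ℕ, ∀ x H W : ℕ, 1 ≤ x → (H : ℝ) ≤ (x : ℝ) ^ A → (W : ℝ) ≤ (x : ℝ) ^ A →
      ∀ c : Fin W → ℕ → ℂ, (∀ i n, ‖c i n‖ ≤ 1) →
      ∀ h : Fin W → Fin k → ℕ, (∀ i j, h i j ≤ H) →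
      ∀ r : ℕ, r.Prime → (x + H) ^ m < r →
        ({χ : DirichletCharacter ℂ r | ∃ i : Fin W, ∃ S : Finset (Fin k), S.Nonempty ∧
            (x : ℝ) ^ (1 / 2 + δ) < ‖∑ n ∈ Icc 1 x, c i n *
              ∏ j ∈ S, χ ((n + h i j : ℕ) : ZMod r)‖}.ncard : ℝ)
          ≤ K * r * (x : ℝ) ^ (-B) := by
  classical
  obtain ⟨q0, hq0⟩ := exists_nat_ge ((A + B) / δ)
  set q : ℕ := q0 + 1 with hq
  have hqr : (0 : ℝ) < q := by rw [hq]; positivity
  have hq1 : A + B ≤ q * δ := by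
    have h1 : (A + B) / δ ≤ q := hq0.trans (by rw [hq]; push_cast; linarith)
    rwa [div_le_iff₀ hδ] at h1
  set η : ℝ := δ / ((A + 1) * (k + 1) * q) with hη
  have hη0 : 0 < η := by positivity
  obtain ⟨C0, hC00, hdiv⟩ := Pool.Agent.H510R2.divisor_bound η hη0
  set C : ℝ := C0 ^ q * 2 ^ (q * δ) with hC
  have hCpos : 0 < C := by positivity
  refine ⟨2 ^ k * C, k * q, ?_⟩
  intro x H W hx hH hW c hc h hh r hr hrx
  have hx1 : (1 : ℝ) ≤ x := by exact_mod_cast hx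
  have hx0 : (0 : ℝ) < x := by linarith
  have hr0 : (0 : ℝ) < r := by exact_mod_cast hr.pos
  set Y : ℕ := x + H with hY
  have hY1 : 1 ≤ Y := by omega
  have hYr : (Y : ℝ) ≤ 2 * (x : ℝ) ^ (A + 1) := by
    have h1 : (x : ℝ) ≤ (x : ℝ) ^ (A + 1) := by
      calc (x : ℝ) = (x : ℝ) ^ (1 : ℝ) := (Real.rpow_one _).symm
        _ ≤ _ := Real.rpow_le_rpow_of_exponent_le hx1 (by linarith)
    have h2 : (x : ℝ) ^ A ≤ (x : ℝ) ^ (A + 1) :=
      Real.rpow_le_rpow_of_exponent_le hx1 (by linarith)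
    rw [hY]; push_cast; linarith
  have hYpow : (((Y ^ k : ℕ) : ℝ)) ^ ((q : ℝ) * q * η) ≤ 2 ^ (q * δ) * (x : ℝ) ^ (q * δ) := by
    push_cast
    have hYr1 : (1 : ℝ) ≤ Y := by exact_mod_cast hY1
    have e1 : ((Y : ℝ) ^ k) ^ ((q : ℝ) * q * η) = (Y : ℝ) ^ ((k : ℝ) * (q * q * η)) := by
      rw [← Real.rpow_natCast (Y : ℝ) k, ← Real.rpow_mul (by linarith)]
    have e2 : (A + 1) * ((k : ℝ) * (q * q * η)) ≤ q * δ := by
      have e3 : (A + 1) * ((k : ℝ) * (q * q * η)) = (k / (k + 1)) * (q * δ) := by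
        rw [hη]; field_simp
      rw [e3]
      have e4 : (k : ℝ) / (k + 1) ≤ 1 := by
        rw [div_le_one (by positivity)]; linarith
      have : 0 ≤ (q : ℝ) * δ := by positivity
      nlinarith
    have e5 : (0 : ℝ) ≤ (k : ℝ) * (q * q * η) := by positivity
    have e6 : (k : ℝ) * (q * q * η) ≤ q * δ := by nlinarith
    rw [e1]
    calc (Y : ℝ) ^ ((k : ℝ) * (q * q * η)) ≤ (2 * (x : ℝ) ^ (A + 1)) ^ ((k : ℝ) * (q * q * η)) :=
          Real.rpow_le_rpow (by positivity) hYr e5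
      _ = 2 ^ ((k : ℝ) * (q * q * η)) * (x : ℝ) ^ ((A + 1) * ((k : ℝ) * (q * q * η))) := by
          rw [Real.mul_rpow (by norm_num) (by positivity), ← Real.rpow_mul hx0.le]
      _ ≤ 2 ^ (q * δ) * (x : ℝ) ^ (q * δ) := by
          gcongr
          · norm_num
  let D : Fin W × Finset (Fin k) → DirichletCharacter ℂ r → ℂ := fun p χ =>
    ∑ n ∈ Icc 1 x, c p.1 n * ∏ j ∈ p.2, χ ((n + h p.1 j : ℕ) : ZMod r)
  have hmom : ∀ p : Fin W × Finset (Fin k), p.2.Nonempty →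
      ∑ χ : DirichletCharacter ℂ r, ‖D p χ‖ ^ (2 * q)
        ≤ r * (C * (x : ℝ) ^ (q * δ) * (x : ℝ) ^ q) := by
    intro p hp
    set P : ℕ → ℕ := pr (h p.1) p.2 with hP
    have hinj := pr_inj (h p.1) p.2 hp x
    set s : Finset ℕ := (Icc 1 x).image P with hs
    have hsub : s ⊆ Icc 1 (Y ^ k) := by
      intro u hu
      rw [hs, mem_image] at hu
      obtain ⟨n, hn, rfl⟩ := hu
      rw [mem_Icc] at hn ⊢
      refine ⟨pr_pos _ _ _ hn.1, (pr_le _ _ n x H hn.2 (hh p.1)).trans ?_⟩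
      refine Nat.pow_le_pow_right hY1 ?_
      simpa using Finset.card_le_univ p.2
    have hcount := Pool.Agent.H735MQ.fact_count s (Y ^ k) q η C0 hη0.le hC00 hdiv
    have h1 := Pool.Agent.H735MQ.moment s (Y ^ k) q hsub
      (fun u => c p.1 (Function.invFunOn P (Icc 1 x : Finset ℕ) u)) _ hcount r hr
      (by rw [← pow_mul]; exact hrx)
    have h2 : ∀ χ : DirichletCharacter ℂ r, D p χ
        = ∑ u ∈ s, c p.1 (Function.invFunOn P (Icc 1 x : Finset ℕ) u) * χ (u : ZMod r) := by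
      intro χ
      rw [hs, Finset.sum_image hinj]
      refine Finset.sum_congr rfl (fun n hn => ?_)
      rw [term_eq, hinj.leftInvOn_invFunOn (Finset.mem_coe.mpr hn)]
    rw [Finset.sum_congr rfl (fun χ _ => by rw [h2 χ])]
    refine h1.trans (mul_le_mul_of_nonneg_left ?_ hr0.le)
    have h3 : ∑ u ∈ s, ‖c p.1 (Function.invFunOn P (Icc 1 x : Finset ℕ) u)‖ ^ 2 ≤ (x : ℝ) := by
      refine (Finset.sum_le_sum (g := fun _ => (1 : ℝ)) (fun u _ => ?_)).trans ?_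
      · exact pow_le_one₀ (norm_nonneg _) (hc _ _)
      · simp only [Finset.sum_const, nsmul_eq_mul, mul_one]
        have h4 : s.card ≤ x := by
          refine Finset.card_image_le.trans ?_
          simp
        exact_mod_cast h4
    calc C0 ^ q * ((Y ^ k : ℕ) : ℝ) ^ ((q : ℝ) * q * η) *
        (∑ u ∈ s, ‖c p.1 (Function.invFunOn P (Icc 1 x : Finset ℕ) u)‖ ^ 2) ^ q
        ≤ C0 ^ q * (2 ^ (q * δ) * (x : ℝ) ^ (q * δ)) * (x : ℝ) ^ q := by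
          gcongr
      _ = C * (x : ℝ) ^ (q * δ) * (x : ℝ) ^ q := by rw [hC]; ring
  set G : Finset (Fin W × Finset (Fin k)) := Finset.univ.filter (fun p => p.2.Nonempty) with hG
  have hGc : (G.card : ℝ) ≤ 2 ^ k * (x : ℝ) ^ A := by
    have h1 : G.card ≤ W * 2 ^ k := by
      refine (Finset.card_filter_le _ _).trans ?_
      rw [Finset.card_univ, Fintype.card_prod, Fintype.card_finset, Fintype.card_fin,
        Fintype.card_fin]
    calc (G.card : ℝ) ≤ W * 2 ^ k := by exact_mod_cast h1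
      _ ≤ (x : ℝ) ^ A * 2 ^ k := by gcongr
      _ = _ := mul_comm _ _
  have hmom2 : ∑ χ : DirichletCharacter ℂ r, ∑ p ∈ G, ‖D p χ‖ ^ (2 * q)
      ≤ (2 ^ k * (x : ℝ) ^ A) * (r * (C * (x : ℝ) ^ (q * δ) * (x : ℝ) ^ q)) := by
    rw [Finset.sum_comm]
    calc ∑ p ∈ G, ∑ χ : DirichletCharacter ℂ r, ‖D p χ‖ ^ (2 * q)
        ≤ ∑ _p ∈ G, (r * (C * (x : ℝ) ^ (q * δ) * (x : ℝ) ^ q)) := by
          refine Finset.sum_le_sum (fun p hp => hmom p ?_)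
          rw [hG, Finset.mem_filter] at hp
          exact hp.2
      _ = G.card * (r * (C * (x : ℝ) ^ (q * δ) * (x : ℝ) ^ q)) := by
          rw [Finset.sum_const, nsmul_eq_mul]
      _ ≤ _ := mul_le_mul_of_nonneg_right hGc (by positivity)
  have hm := Pool.Agent.H735MQ.markov
    (fun χ : DirichletCharacter ℂ r => ∑ p ∈ G, ‖D p χ‖ ^ (2 * q))
    (fun χ => Finset.sum_nonneg (fun _ _ => by positivity))
    (((x : ℝ) ^ (1 / 2 + δ)) ^ (2 * q)) _ hmom2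
    {χ : DirichletCharacter ℂ r | ∃ i : Fin W, ∃ S : Finset (Fin k), S.Nonempty ∧
            (x : ℝ) ^ (1 / 2 + δ) < ‖∑ n ∈ Icc 1 x, c i n *
              ∏ j ∈ S, χ ((n + h i j : ℕ) : ZMod r)‖} (by
      rintro χ ⟨i, S, hS, hlt⟩
      have h3 : ‖D (i, S) χ‖ ^ (2 * q) ≤ ∑ p ∈ G, ‖D p χ‖ ^ (2 * q) :=
        Finset.single_le_sum (f := fun p => ‖D p χ‖ ^ (2 * q)) (fun _ _ => by positivity)
          (by rw [hG, Finset.mem_filter]; exact ⟨Finset.mem_univ _, hS⟩)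
      refine le_trans ?_ h3
      exact pow_le_pow_left₀ (by positivity) hlt.le _)
  set Z : ℝ := (({χ : DirichletCharacter ℂ r | ∃ i : Fin W, ∃ S : Finset (Fin k), S.Nonempty ∧
            (x : ℝ) ^ (1 / 2 + δ) < ‖∑ n ∈ Icc 1 x, c i n *
              ∏ j ∈ S, χ ((n + h i j : ℕ) : ZMod r)‖}.ncard : ℕ) : ℝ) with hZ
  have hZ0 : 0 ≤ Z := Nat.cast_nonneg _
  have h1 : ((x : ℝ) ^ (1 / 2 + δ)) ^ (2 * q)
      = (x : ℝ) ^ (q * δ) * ((x : ℝ) ^ (q * δ) * (x : ℝ) ^ q) := by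
    rw [← Real.rpow_natCast ((x : ℝ) ^ (1 / 2 + δ)), ← Real.rpow_mul hx0.le,
      ← Real.rpow_natCast (x : ℝ) q, ← Real.rpow_add hx0, ← Real.rpow_add hx0]
    congr 1
    push_cast; ring
  rw [h1] at hm
  have hpos : (0 : ℝ) < (x : ℝ) ^ (q * δ) * (x : ℝ) ^ q := by positivity
  have h2 : Z * (x : ℝ) ^ (q * δ) ≤ (2 ^ k * (x : ℝ) ^ A) * r * C := by
    have h3 : (Z * (x : ℝ) ^ (q * δ)) * ((x : ℝ) ^ (q * δ) * (x : ℝ) ^ q)
        ≤ ((2 ^ k * (x : ℝ) ^ A) * r * C) * ((x : ℝ) ^ (q * δ) * (x : ℝ) ^ q) := by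
      calc _ = Z * ((x : ℝ) ^ (q * δ) * ((x : ℝ) ^ (q * δ) * (x : ℝ) ^ q)) := by ring
        _ ≤ _ := hm
        _ = _ := by ring
    exact le_of_mul_le_mul_right h3 hpos
  have h5 : (x : ℝ) ^ A * (x : ℝ) ^ B ≤ (x : ℝ) ^ (q * δ) := by
    rw [← Real.rpow_add hx0]
    exact Real.rpow_le_rpow_of_exponent_le hx1 hq1
  have hNA0 : (0 : ℝ) < (x : ℝ) ^ A := by positivity
  have h6 : Z * (x : ℝ) ^ B ≤ 2 ^ k * C * r := by
    have h7 : (Z * (x : ℝ) ^ B) * (x : ℝ) ^ A ≤ (2 ^ k * C * r) * (x : ℝ) ^ A := by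
      calc (Z * (x : ℝ) ^ B) * (x : ℝ) ^ A = Z * ((x : ℝ) ^ A * (x : ℝ) ^ B) := by ring
        _ ≤ Z * (x : ℝ) ^ (q * δ) := mul_le_mul_of_nonneg_left h5 hZ0
        _ ≤ (2 ^ k * (x : ℝ) ^ A) * r * C := h2
        _ = _ := by ring
    exact le_of_mul_le_mul_right h7 hNA0
  rw [Real.rpow_neg hx0.le, ← div_eq_mul_inv, le_div_iff₀ (Real.rpow_pos_of_pos hx0 _)]
  exact h6

end Pool.Agent.H735EL
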