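import Pool.Agent.H735MQ.Final

/-! Correlations of almost all character twists. -/

set_option autoImplicit false

open Finset

namespace Pool.Agent.H735EL

/-- product over `S` of the shifted arguments -/
def pr {k : ℕ} (h : Fin k → ℕ) (S : Finset (Fin k)) (n : ℕ) : ℕ := ∏ j ∈ S, (n + h j)

theorem pr_pos {k : ℕ} (h : Fin k → ℕ) (S : Finset (Fin k)) (n : ℕ) (hn : 1 ≤ n) :
    1 ≤ pr h S n :=
  Finset.one_le_prod' (fun i _ => by omega)

theorem pr_le {k : ℕ} (h : Fin k → ℕ) (S : Finset (Fin k)) (n x H : ℕ) (hn : n ≤ x)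
    (hH : ∀ j, h j ≤ H) : pr h S n ≤ (x + H) ^ S.card := by
  calc pr h S n ≤ ∏ _j ∈ S, (x + H) :=
        Finset.prod_le_prod' (fun i _ => by have := hH i; omega)
    _ = _ := by simp

theorem deg_le {k : ℕ} (h : Fin k → ℕ) (S : Finset (Fin k)) (c : ℤ) :
    ((∏ j ∈ S, (Polynomial.X + Polynomial.C (h j : ℤ))) * Polynomial.C c).natDegree ≤ k := by
  refine (Polynomial.natDegree_mul_C_le _ _).trans ?_
  refine (Polynomial.natDegree_prod_le _ _).trans ?_
  have h1 : ∀ j ∈ S, (Polynomial.X + Polynomial.C (h j : ℤ)).natDegree = 1 :=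
    fun j _ => Polynomial.natDegree_X_add_C _
  have h2 : S.card ≤ k := by
    have := Finset.card_le_univ S
    rwa [Fintype.card_fin] at this
  rw [Finset.sum_congr rfl h1, Finset.sum_const, smul_eq_mul, mul_one]
  exact h2

theorem aux_ne {k : ℕ} (h : Fin k → ℕ) (hinj : Function.Injective h) (S T : Finset (Fin k))
    (hST : Disjoint S T) (j : Fin k) (hj : j ∈ S) (u : ℕ) (hu : 1 ≤ u) :
    (∏ i ∈ T, (-(h j : ℤ) + h i)) * (u : ℤ) ≠ 0 := by
  intro e
  rw [mul_eq_zero] at e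
  rcases e with e | e
  · rw [Finset.prod_eq_zero_iff] at e
    obtain ⟨i, hi, hi2⟩ := e
    have h1 : h i = h j := by omega
    have h2 := hinj h1
    subst h2
    exact (Finset.disjoint_left.mp hST hj) hi
  · omega

theorem count_sol {k : ℕ} (h : Fin k → ℕ) (hinj : Function.Injective h) (S T : Finset (Fin k))
    (hST : Disjoint S T) (hne : (S ∪ T).Nonempty) (x m : ℕ) (hm : 1 ≤ m) :
    ((Icc 1 x).filter (fun n => pr h S n * pr h T m = pr h T n * pr h S m)).card ≤ k := by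
  classical
  set P : Polynomial ℤ :=
    (∏ j ∈ S, (Polynomial.X + Polynomial.C (h j : ℤ))) * Polynomial.C (pr h T m : ℤ)
    - (∏ j ∈ T, (Polynomial.X + Polynomial.C (h j : ℤ))) * Polynomial.C (pr h S m : ℤ) with hP
  have hev : ∀ z : ℤ, P.eval z = (∏ j ∈ S, (z + h j)) * (pr h T m : ℤ)
      - (∏ j ∈ T, (z + h j)) * (pr h S m : ℤ) := by
    intro z
    rw [hP]
    simp only [Polynomial.eval_sub, Polynomial.eval_mul, Polynomial.eval_prod,
      Polynomial.eval_add, Polynomial.eval_X, Polynomial.eval_C]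
  have hP0 : P ≠ 0 := by
    intro h0
    obtain ⟨j, hj⟩ := hne
    have e := hev (-(h j : ℤ))
    rw [h0, Polynomial.eval_zero] at e
    rw [Finset.mem_union] at hj
    rcases hj with hj | hj
    · rw [Finset.prod_eq_zero hj (by ring : -(h j : ℤ) + h j = 0), zero_mul, zero_sub] at e
      have h1 := aux_ne h hinj S T hST j hj _ (pr_pos h S m hm)
      exact h1 (by linarith)
    · rw [Finset.prod_eq_zero hj (by ring : -(h j : ℤ) + h j = 0), zero_mul, sub_zero] at e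
      have h1 := aux_ne h hinj T S hST.symm j hj _ (pr_pos h T m hm)
      exact h1 e.symm
  have hdeg : P.natDegree ≤ k :=
    (Polynomial.natDegree_sub_le _ _).trans (max_le (deg_le h S _) (deg_le h T _))
  have hinj2 : Function.Injective (fun n : ℕ => (n : ℤ)) := Nat.cast_injective
  rw [← Finset.card_image_of_injective _ hinj2]
  refine le_trans (Polynomial.card_le_degree_of_subset_roots (p := P) ?_) hdeg
  intro z hz
  rw [Finset.mem_val, Finset.mem_image] at hz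
  obtain ⟨n, hn, rfl⟩ := hz
  rw [Finset.mem_filter] at hn
  rw [Polynomial.mem_roots hP0, Polynomial.IsRoot.def, hev]
  have h1 := hn.2
  have h2 : ((pr h S n : ℕ) : ℤ) * (pr h T m : ℤ) = (pr h T n : ℤ) * (pr h S m : ℤ) := by
    exact_mod_cast h1
  have h3 : ∀ U : Finset (Fin k), ((pr h U n : ℕ) : ℤ) = ∏ j ∈ U, ((n : ℤ) + h j) := by
    intro U; rw [pr]; push_cast; rfl
  rw [h3 S, h3 T] at h2
  linarith

theorem term_eq {k : ℕ} (h : Fin k → ℕ) (S : Finset (Fin k)) (n r : ℕ)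
    (χ : DirichletCharacter ℂ r) :
    ∏ j ∈ S, χ ((n + h j : ℕ) : ZMod r) = χ ((pr h S n : ℕ) : ZMod r) := by
  rw [pr, Nat.cast_prod, map_prod]

theorem second_moment {k : ℕ} (r : ℕ) (hr : r.Prime) (h : Fin k → ℕ)
    (hinj : Function.Injective h) (S T : Finset (Fin k))
    (hST : Disjoint S T) (hne : (S ∪ T).Nonempty) (x H : ℕ) (hH : ∀ j, h j ≤ H)
    (hrx : (x + H) ^ k < r) (c : ℕ → ℂ) (hc : ∀ n, ‖c n‖ ≤ 1) :
    ∑ χ : DirichletCharacter ℂ r, ‖∑ n ∈ Icc 1 x, c n *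
      ((∏ j ∈ S, χ ((n + h j : ℕ) : ZMod r)) *
        ∏ j ∈ T, (starRingEnd ℂ) (χ ((n + h j : ℕ) : ZMod r)))‖ ^ 2
      ≤ ((r : ℝ) - 1) * (k * x) := by
  classical
  have : Fact r.Prime := ⟨hr⟩
  set a : ℕ → ℕ := fun n => pr h S n with ha
  set b : ℕ → ℕ := fun n => pr h T n with hb
  have h0 : ∀ χ : DirichletCharacter ℂ r, ∑ n ∈ Icc 1 x, c n *
      ((∏ j ∈ S, χ ((n + h j : ℕ) : ZMod r)) *
        ∏ j ∈ T, (starRingEnd ℂ) (χ ((n + h j : ℕ) : ZMod r)))
      = ∑ n ∈ Icc 1 x, c n * (χ (a n : ZMod r) * (starRingEnd ℂ) (χ (b n : ZMod r))) := by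
    intro χ
    refine Finset.sum_congr rfl (fun n _ => ?_)
    have e2 : ∏ j ∈ T, (starRingEnd ℂ) (χ ((n + h j : ℕ) : ZMod r))
        = (starRingEnd ℂ) (χ ((pr h T n : ℕ) : ZMod r)) := by
      rw [← term_eq h T n r χ, map_prod]
    rw [term_eq h S n r χ, e2]
  have h1 : ∀ χ : DirichletCharacter ℂ r, ((‖∑ n ∈ Icc 1 x, c n *
      (χ (a n : ZMod r) * (starRingEnd ℂ) (χ (b n : ZMod r)))‖ ^ 2 : ℝ) : ℂ)
      = ∑ n ∈ Icc 1 x, ∑ m ∈ Icc 1 x, (c n * (starRingEnd ℂ) (c m)) *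
        (χ ((a n * b m : ℕ) : ZMod r) * (starRingEnd ℂ) (χ ((b n * a m : ℕ) : ZMod r))) := by
    intro χ
    rw [← Complex.normSq_eq_norm_sq, ← Complex.mul_conj, map_sum, Finset.sum_mul_sum]
    refine Finset.sum_congr rfl (fun n _ => Finset.sum_congr rfl (fun m _ => ?_))
    simp only [Nat.cast_mul, map_mul, Complex.conj_conj]
    ring
  have hsmall : ∀ n ∈ Icc 1 x, ∀ m ∈ Icc 1 x, a n * b m < r ∧ b n * a m < r ∧ 1 ≤ a n * b m := by
    intro n hn m hm
    rw [mem_Icc] at hn hm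
    have hcard : S.card + T.card ≤ k := by
      rw [← Finset.card_union_of_disjoint hST]
      simpa using Finset.card_le_univ (S ∪ T)
    have hxH : 1 ≤ x + H := by omega
    have hpw : (x + H) ^ S.card * (x + H) ^ T.card ≤ (x + H) ^ k := by
      rw [← pow_add]; exact Nat.pow_le_pow_right hxH hcard
    refine ⟨?_, ?_, ?_⟩
    · exact lt_of_le_of_lt ((Nat.mul_le_mul (pr_le h S n x H hn.2 hH)
        (pr_le h T m x H hm.2 hH)).trans hpw) hrx
    · refine lt_of_le_of_lt ((Nat.mul_le_mul (pr_le h T n x H hn.2 hH)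
        (pr_le h S m x H hm.2 hH)).trans ?_) hrx
      rw [mul_comm]; exact hpw
    · exact Nat.mul_pos (pr_pos h S n hn.1) (pr_pos h T m hm.1)
  have h3 : ((∑ χ : DirichletCharacter ℂ r, ‖∑ n ∈ Icc 1 x, c n *
      (χ (a n : ZMod r) * (starRingEnd ℂ) (χ (b n : ZMod r)))‖ ^ 2 : ℝ) : ℂ)
      = ∑ n ∈ Icc 1 x, ∑ m ∈ Icc 1 x, (c n * (starRingEnd ℂ) (c m)) *
        (if a n * b m = b n * a m then ((r : ℂ) - 1) else 0) := by
    rw [Complex.ofReal_sum, Finset.sum_congr rfl (fun χ _ => h1 χ), Finset.sum_comm]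
    refine Finset.sum_congr rfl (fun n hn => ?_)
    rw [Finset.sum_comm]
    refine Finset.sum_congr rfl (fun m hm => ?_)
    rw [← Finset.mul_sum, Pool.Agent.H735CB.sum_char]
    congr 1
    obtain ⟨h4, h5, h6⟩ := hsmall n hn m hm
    by_cases hnm : a n * b m = b n * a m
    · rw [if_pos hnm, if_pos]
      refine ⟨by rw [hnm], ?_⟩
      rw [Ne, ZMod.natCast_eq_zero_iff]
      intro h7
      have := Nat.le_of_dvd (by omega) h7
      omega
    · rw [if_neg hnm, if_neg]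
      rintro ⟨h7, -⟩
      apply hnm
      rw [ZMod.natCast_eq_natCast_iff'] at h7
      rwa [Nat.mod_eq_of_lt h4, Nat.mod_eq_of_lt h5] at h7
  have hr1 : (0 : ℝ) ≤ (r : ℝ) - 1 := by
    have : (1 : ℝ) ≤ r := by exact_mod_cast hr.one_lt.le
    linarith
  have h5 : ∑ χ : DirichletCharacter ℂ r, ‖∑ n ∈ Icc 1 x, c n *
      (χ (a n : ZMod r) * (starRingEnd ℂ) (χ (b n : ZMod r)))‖ ^ 2
      ≤ ((r : ℝ) - 1) * (k * x) := by
    have h6 : ∑ χ : DirichletCharacter ℂ r, ‖∑ n ∈ Icc 1 x, c n *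
      (χ (a n : ZMod r) * (starRingEnd ℂ) (χ (b n : ZMod r)))‖ ^ 2
      = ‖((∑ χ : DirichletCharacter ℂ r, ‖∑ n ∈ Icc 1 x, c n *
      (χ (a n : ZMod r) * (starRingEnd ℂ) (χ (b n : ZMod r)))‖ ^ 2 : ℝ) : ℂ)‖ := by
      rw [Complex.norm_real, Real.norm_of_nonneg]
      exact Finset.sum_nonneg (fun χ _ => sq_nonneg _)
    rw [h6, h3, Finset.sum_comm]
    refine (norm_sum_le _ _).trans ?_
    calc ∑ m ∈ Icc 1 x, ‖∑ n ∈ Icc 1 x, (c n * (starRingEnd ℂ) (c m)) *
          (if a n * b m = b n * a m then ((r : ℂ) - 1) else 0)‖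
        ≤ ∑ m ∈ Icc 1 x, ((r : ℝ) - 1) * k := by
          refine Finset.sum_le_sum (fun m hm => ?_)
          refine (norm_sum_le _ _).trans ?_
          have h7 : ∀ n ∈ Icc 1 x, ‖(c n * (starRingEnd ℂ) (c m)) *
              (if a n * b m = b n * a m then ((r : ℂ) - 1) else 0)‖
              ≤ if a n * b m = b n * a m then ((r : ℝ) - 1) else 0 := by
            intro n _
            rw [norm_mul, norm_mul, RCLike.norm_conj]
            have h8 : ‖c n‖ * ‖c m‖ ≤ 1 :=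
              mul_le_one₀ (hc n) (norm_nonneg _) (hc m)
            split_ifs with h9
            · have h10 : ‖(r : ℂ) - 1‖ = (r : ℝ) - 1 := by
                have : ((r : ℂ) - 1) = (((r : ℝ) - 1 : ℝ) : ℂ) := by push_cast; rfl
                rw [this, Complex.norm_real, Real.norm_of_nonneg hr1]
              rw [h10]
              nlinarith
            · simp
          refine (Finset.sum_le_sum h7).trans ?_
          rw [← Finset.sum_filter, Finset.sum_const, nsmul_eq_mul, mul_comm]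
          refine mul_le_mul_of_nonneg_left ?_ hr1
          exact_mod_cast count_sol h hinj S T hST hne x m (mem_Icc.mp hm).1
      _ = ((r : ℝ) - 1) * (k * x) := by
          rw [Finset.sum_const, Nat.card_Icc, nsmul_eq_mul]
          push_cast [Nat.add_sub_cancel]
          ring
  refine le_trans (le_of_eq ?_) h5
  exact Finset.sum_congr rfl (fun χ _ => by rw [h0 χ])

/-- The final count. -/
theorem main_count (k : ℕ) (h : Fin k → ℕ) (hinj : Function.Injective h)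
    (c : Finset (Fin k) → Finset (Fin k) → ℕ → ℂ) (hc : ∀ S T n, ‖c S T n‖ ≤ 1) (x : ℕ) (hx : 1 ≤ x) (ε : ℝ) (hε : 0 < ε)
    (r : ℕ) (hr : r.Prime) (hrx : (x + ∑ j, h j) ^ k < r) :
    ({χ : DirichletCharacter ℂ r | ∃ S T : Finset (Fin k), Disjoint S T ∧ (S ∪ T).Nonempty ∧
        ε * x < ‖∑ n ∈ Icc 1 x, c S T n *
          ((∏ j ∈ S, χ ((n + h j : ℕ) : ZMod r)) *
            ∏ j ∈ T, (starRingEnd ℂ) (χ ((n + h j : ℕ) : ZMod r)))‖}.ncard : ℝ)
      ≤ 4 ^ k * k * r / (ε ^ 2 * x) := by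
  classical
  have : Fact r.Prime := ⟨hr⟩
  have hH : ∀ j, h j ≤ ∑ j, h j := fun j =>
    Finset.single_le_sum (f := h) (fun _ _ => Nat.zero_le _) (Finset.mem_univ j)
  have hx0 : (0 : ℝ) < x := by exact_mod_cast hx
  set F : Finset (Fin k) × Finset (Fin k) → DirichletCharacter ℂ r → ℝ := fun p χ =>
    ‖∑ n ∈ Icc 1 x, c p.1 p.2 n *
          ((∏ j ∈ p.1, χ ((n + h j : ℕ) : ZMod r)) *
            ∏ j ∈ p.2, (starRingEnd ℂ) (χ ((n + h j : ℕ) : ZMod r)))‖ with hF
  set G : Finset (Finset (Fin k) × Finset (Fin k)) :=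
    Finset.univ.filter (fun p => Disjoint p.1 p.2 ∧ (p.1 ∪ p.2).Nonempty) with hG
  have hGc : (G.card : ℝ) ≤ 4 ^ k := by
    have h1 : G.card ≤ 4 ^ k := by
      refine (Finset.card_filter_le _ _).trans ?_
      rw [Finset.card_univ, Fintype.card_prod, Fintype.card_finset, Fintype.card_fin, ← mul_pow]
      norm_num
    exact_mod_cast h1
  set Φ : DirichletCharacter ℂ r → ℝ := fun χ => ∑ p ∈ G, F p χ ^ 2 with hΦ
  have hM : ∑ χ, Φ χ ≤ 4 ^ k * (((r : ℝ) - 1) * (k * x)) := by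
    rw [hΦ]
    simp only
    rw [Finset.sum_comm]
    have hr1 : (0 : ℝ) ≤ (r : ℝ) - 1 := by
      have : (1 : ℝ) ≤ r := by exact_mod_cast hr.one_lt.le
      linarith
    calc ∑ p ∈ G, ∑ χ, F p χ ^ 2 ≤ ∑ _p ∈ G, (((r : ℝ) - 1) * (k * x)) := by
          refine Finset.sum_le_sum (fun p hp => ?_)
          rw [hG, Finset.mem_filter] at hp
          exact second_moment r hr h hinj p.1 p.2 hp.2.1 hp.2.2 x (∑ j, h j) hH hrx _ (hc p.1 p.2)
      _ = G.card * (((r : ℝ) - 1) * (k * x)) := by rw [Finset.sum_const, nsmul_eq_mul]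
      _ ≤ _ := mul_le_mul_of_nonneg_right hGc (by positivity)
  have h2 := Pool.Agent.H735MQ.markov Φ
    (fun χ => Finset.sum_nonneg (fun p _ => sq_nonneg _)) ((ε * x) ^ 2) _ hM
    {χ : DirichletCharacter ℂ r | ∃ S T : Finset (Fin k), Disjoint S T ∧ (S ∪ T).Nonempty ∧
        ε * x < ‖∑ n ∈ Icc 1 x, c S T n *
          ((∏ j ∈ S, χ ((n + h j : ℕ) : ZMod r)) *
            ∏ j ∈ T, (starRingEnd ℂ) (χ ((n + h j : ℕ) : ZMod r)))‖} (by
      rintro χ ⟨S, T, hST, hne, hlt⟩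
      have h3 : F (S, T) χ ^ 2 ≤ Φ χ :=
        Finset.single_le_sum (f := fun p => F p χ ^ 2) (fun p _ => sq_nonneg _)
          (by rw [hG, Finset.mem_filter]; exact ⟨Finset.mem_univ _, hST, hne⟩)
      refine le_trans ?_ h3
      exact pow_le_pow_left₀ (by positivity) hlt.le 2)
  rw [le_div_iff₀ (by positivity)]
  have h4 : (ε * x) ^ 2 = ε ^ 2 * x * x := by ring
  rw [h4] at h2
  have h5 : (4 : ℝ) ^ k * (((r : ℝ) - 1) * (k * x)) ≤ 4 ^ k * k * r * x := by
    have : (0 : ℝ) ≤ 4 ^ k * k * x := by positivity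
    nlinarith
  have h6 := h2.trans h5
  rw [← mul_assoc] at h6
  exact le_of_mul_le_mul_right h6 hx0

end Pool.Agent.H735EL
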